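import Mathlib
import Pool.Agent.Results.MP_6df72f_an.BasicExtension

/-!
# A closed sum `[x_n] + [f_n]_⊥` with `(f_n)` not equivalent to the coefficient functionals
-/

open Filter Topology

namespace Pool.Agent.Results.MP_68f07c_an.ClosedSumCounterexample

section Defs

variable {𝕜 E F : Type} [RCLike 𝕜] [NormedAddCommGroup E] [NormedSpace 𝕜 E]
  [NormedAddCommGroup F] [NormedSpace 𝕜 F]

/-- The closed linear span `[u_n]`. -/
def closedSpan (𝕜 : Type) {E : Type} [RCLike 𝕜] [NormedAddCommGroup E] [NormedSpace 𝕜 E]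
    (u : ℕ → E) : Submodule 𝕜 E :=
  (Submodule.span 𝕜 (Set.range u)).topologicalClosure

/-- Basic sequence: a Schauder basis of its closed linear span. -/
def IsBasic (𝕜 : Type) {E : Type} [RCLike 𝕜] [NormedAddCommGroup E] [NormedSpace 𝕜 E]
    (u : ℕ → E) : Prop :=
  ∀ v ∈ closedSpan 𝕜 u, ∃! a : ℕ → 𝕜,
    Tendsto (fun n => ∑ i ∈ Finset.range n, a i • u i) atTop (𝓝 v)

/-- The pre-annihilator of a set of functionals. -/
def preAnn (A : Set (StrongDual 𝕜 E)) : Set E := {v | ∀ g ∈ A, g v = 0}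

/-- The series `∑ a_n u_n` converges in norm. -/
def SeriesConverges (u : ℕ → E) (a : ℕ → 𝕜) : Prop :=
  ∃ v : E, Tendsto (fun n => ∑ i ∈ Finset.range n, a i • u i) atTop (𝓝 v)

/-- Equivalence of sequences: the same scalar series converge. -/
def Equivalent (𝕜 : Type) {E F : Type} [RCLike 𝕜] [NormedAddCommGroup E] [NormedSpace 𝕜 E]
    [NormedAddCommGroup F] [NormedSpace 𝕜 F] (u : ℕ → E) (w : ℕ → F) : Prop :=
  ∀ a : ℕ → 𝕜, SeriesConverges u a ↔ SeriesConverges w a

/-- The restrictions `φ_n` of the functionals `f_n` to the closed linear span `[x_n]`. -/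
def restricted (x : ℕ → E) (f : ℕ → StrongDual 𝕜 E) (n : ℕ) : StrongDual 𝕜 (closedSpan 𝕜 x) :=
  (f n).comp (closedSpan 𝕜 x).subtypeL

end Defs

section Construction

variable (𝕜 : Type) [RCLike 𝕜]

/-- The space `ℓ₁(ℕ ⊕ ℕ)`. -/
abbrev L1 : Type := lp (fun _ : ℕ ⊕ ℕ => 𝕜) 1

variable {𝕜}

lemma norm_eq (y : L1 𝕜) : ‖y‖ = ∑' j, ‖y j‖ := by
  have := lp.norm_rpow_eq_tsum (p := 1) (by norm_num) y
  simpa using this

lemma summ (y : L1 𝕜) : Summable fun j => ‖y j‖ := by
  have := (lp.memℓp y).summable (by norm_num)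
  simpa using this

/-- Unit vectors. -/
noncomputable def e (i : ℕ ⊕ ℕ) : L1 𝕜 := lp.single 1 i (1 : 𝕜)

lemma e_apply (i j : ℕ ⊕ ℕ) : (e i : L1 𝕜) j = if j = i then 1 else 0 := by
  simp [e, lp.single_apply, Pi.single_apply]

lemma norm_e (i : ℕ ⊕ ℕ) : ‖(e i : L1 𝕜)‖ = 1 := by
  rw [e, lp.norm_single (by norm_num)]
  simp

/-- The functional of a coefficient family bounded by one. -/
noncomputable def pair (s : ℕ ⊕ ℕ → ℝ) (hs : ∀ i, |s i| ≤ 1) : StrongDual 𝕜 (L1 𝕜) :=
  LinearMap.mkContinuous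
    { toFun := fun y => ∑' i, ((s i : ℝ) : 𝕜) * y i
      map_add' := by
        intro y z
        have h1 : ∀ w : L1 𝕜, Summable fun i => ((s i : ℝ) : 𝕜) * w i := fun w =>
          Summable.of_norm_bounded (summ w) fun i => by
            rw [norm_mul, RCLike.norm_ofReal]
            exact mul_le_of_le_one_left (norm_nonneg _) (hs i)
        simp only [lp.coeFn_add, Pi.add_apply, mul_add]
        exact (h1 y).tsum_add (h1 z)
      map_smul' := by
        intro c y
        simp only [lp.coeFn_smul, Pi.smul_apply, smul_eq_mul, RingHom.id_apply]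
        rw [← tsum_mul_left]
        exact tsum_congr fun i => by ring }
    1 (by
      intro y
      simp only [LinearMap.coe_mk, AddHom.coe_mk, one_mul]
      rw [norm_eq]
      refine tsum_of_norm_bounded (summ y).hasSum fun i => ?_
      rw [norm_mul, RCLike.norm_ofReal]
      exact mul_le_of_le_one_left (norm_nonneg _) (hs i))

lemma pair_apply (s : ℕ ⊕ ℕ → ℝ) (hs : ∀ i, |s i| ≤ 1) (y : L1 𝕜) :
    pair s hs y = ∑' i, ((s i : ℝ) : 𝕜) * y i := rfl

lemma norm_pair_le (s : ℕ ⊕ ℕ → ℝ) (hs : ∀ i, |s i| ≤ 1) :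
    ‖(pair s hs : StrongDual 𝕜 (L1 𝕜))‖ ≤ 1 :=
  LinearMap.mkContinuous_norm_le _ zero_le_one _

lemma pair_e (s : ℕ ⊕ ℕ → ℝ) (hs : ∀ i, |s i| ≤ 1) (i : ℕ ⊕ ℕ) :
    pair s hs (e i : L1 𝕜) = ((s i : ℝ) : 𝕜) := by
  rw [pair_apply, tsum_eq_single i]
  · simp [e_apply]
  · intro j hj
    simp [e_apply, hj]

/-- The sign patterns: the binary digits of `j` up to place `j`, then the indicator function of
the `j`-th column of the pairing function. -/
noncomputable def sg (j n : ℕ) : ℝ :=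
  if n ≤ j then (if j.testBit n then 1 else -1) else (if (Nat.unpair n).1 = j then 1 else 0)

lemma abs_sg_le (j n : ℕ) : |sg j n| ≤ 1 := by
  unfold sg
  split_ifs <;> simp

/-- The coefficients of the functional `f n`. -/
noncomputable def cf (n : ℕ) (i : ℕ ⊕ ℕ) : ℝ :=
  Sum.elim (fun m => if m = n then 1 else 0) (fun j => sg j n) i

lemma abs_cf_le (n : ℕ) (i : ℕ ⊕ ℕ) : |cf n i| ≤ 1 := by
  unfold cf
  rcases i with m | j
  · simp only [Sum.elim_inl]
    split_ifs <;> simp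
  · exact abs_sg_le j n

variable (𝕜)

/-- The vectors. -/
noncomputable def x (n : ℕ) : L1 𝕜 := e (Sum.inl n)

/-- The functionals. -/
noncomputable def f (n : ℕ) : StrongDual 𝕜 (L1 𝕜) := pair (cf n) (abs_cf_le n)

variable {𝕜}

lemma biorth (i j : ℕ) : f 𝕜 i (x 𝕜 j) = if i = j then 1 else 0 := by
  unfold f x
  rw [pair_e]
  simp only [cf, Sum.elim_inl]
  by_cases h : i = j
  · subst h; simp
  · rw [if_neg h, if_neg (fun h' => h h'.symm), RCLike.ofReal_zero]

lemma sum_x_apply (a : ℕ → 𝕜) (n : ℕ) (i : ℕ ⊕ ℕ) :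
    (∑ k ∈ Finset.range n, a k • x 𝕜 k : L1 𝕜) i =
      Sum.elim (fun m => if m < n then a m else 0) (fun _ => 0) i := by
  simp only [lp.coeFn_sum, Finset.sum_apply, lp.coeFn_smul, Pi.smul_apply, x, e_apply, smul_eq_mul,
    mul_ite, mul_one, mul_zero]
  rcases i with m | j
  · simp only [Sum.inl.injEq, Sum.elim_inl]
    rw [Finset.sum_ite_eq]
    simp only [Finset.mem_range]
  · simp

lemma norm_sum_x (a : ℕ → 𝕜) (n : ℕ) :
    ‖∑ k ∈ Finset.range n, a k • x 𝕜 k‖ = ∑ k ∈ Finset.range n, ‖a k‖ := by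
  refine le_antisymm ?_ ?_
  · refine (norm_sum_le _ _).trans (Finset.sum_le_sum fun k _ => ?_)
    rw [norm_smul, x, norm_e, mul_one]
  · have h1 := (summ (∑ k ∈ Finset.range n, a k • x 𝕜 k)).sum_le_tsum
      ((Finset.range n).map ⟨Sum.inl, Sum.inl_injective⟩) (fun _ _ => norm_nonneg _)
    rw [← norm_eq] at h1
    refine le_trans (le_of_eq ?_) h1
    rw [Finset.sum_map]
    refine Finset.sum_congr rfl fun k hk => ?_
    rw [Finset.mem_range] at hk
    simp only [Function.Embedding.coeFn_mk, sum_x_apply, Sum.elim_inl, if_pos hk]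

lemma norm_f_le (n : ℕ) : ‖f 𝕜 n‖ ≤ 1 := norm_pair_le _ _

/-- Every finite sign pattern occurs. -/
lemma exists_pattern (n : ℕ) (s : ℕ → Bool) :
    ∃ j : ℕ, ∀ k < n, sg j k = if s k then 1 else -1 := by
  obtain ⟨m, hm1, hm2⟩ : ∃ m : ℕ, m < 2 ^ n ∧ ∀ k < n, m.testBit k = s k := by
    induction n with
    | zero => exact ⟨0, by simp, fun k hk => absurd hk (by omega)⟩
    | succ n ih =>
      obtain ⟨m, hm1, hm2⟩ := ih
      refine ⟨m + (if s n then 2 ^ n else 0), ?_, fun k hk => ?_⟩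
      · rw [pow_succ]; split_ifs <;> omega
      · by_cases h : s n
        · rw [if_pos h, Nat.add_comm]
          rcases Nat.lt_or_ge k n with hk' | hk'
          · rw [Nat.testBit_two_pow_add_gt hk']; exact hm2 k hk'
          · have : k = n := by omega
            subst this
            rw [Nat.testBit_two_pow_add_eq, Nat.testBit_lt_two_pow hm1]
            simp [h]
        · rw [if_neg h, Nat.add_zero]
          rcases Nat.lt_or_ge k n with hk' | hk'
          · exact hm2 k hk'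
          · have : k = n := by omega
            subst this
            rw [Nat.testBit_lt_two_pow hm1]
            simpa using h
  refine ⟨2 ^ n + m, fun k hk => ?_⟩
  unfold sg
  have h1 : n < 2 ^ n := Nat.lt_two_pow_self
  rw [if_pos (by omega), Nat.testBit_two_pow_add_gt hk, hm2 k hk]

lemma sum_f_e (a : ℕ → 𝕜) (n j : ℕ) :
    (∑ k ∈ Finset.range n, a k • f 𝕜 k) (e (Sum.inr j)) =
      ∑ k ∈ Finset.range n, a k * ((sg j k : ℝ) : 𝕜) := by
  rw [sum_apply]
  refine Finset.sum_congr rfl fun k _ => ?_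
  rw [smul_apply, smul_eq_mul, f, pair_e]
  rfl

lemma norm_le_re_add_im (z : 𝕜) : ‖z‖ ≤ |RCLike.re z| + |RCLike.im z| := by
  refine le_of_sq_le_sq ?_ (by positivity)
  rw [RCLike.norm_sq_eq_def, add_sq, sq_abs, sq_abs]
  have : 0 ≤ 2 * |RCLike.re z| * |RCLike.im z| := by positivity
  nlinarith

lemma norm_sum_f_ge (a : ℕ → 𝕜) (n : ℕ) :
    ∑ k ∈ Finset.range n, ‖a k‖ ≤ 2 * ‖∑ k ∈ Finset.range n, a k • f 𝕜 k‖ := by
  have hj : ∀ j, ‖∑ k ∈ Finset.range n, a k * ((sg j k : ℝ) : 𝕜)‖ ≤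
      ‖∑ k ∈ Finset.range n, a k • f 𝕜 k‖ := by
    intro j
    rw [← sum_f_e]
    refine (ContinuousLinearMap.le_opNorm _ _).trans ?_
    rw [norm_e, mul_one]
  obtain ⟨j1, hj1⟩ := exists_pattern n (fun k => decide (0 ≤ RCLike.re (a k)))
  obtain ⟨j2, hj2⟩ := exists_pattern n (fun k => decide (0 ≤ RCLike.im (a k)))
  have h1 : ∑ k ∈ Finset.range n, |RCLike.re (a k)| ≤
      ‖∑ k ∈ Finset.range n, a k • f 𝕜 k‖ := by
    refine le_trans ?_ (hj j1)
    refine le_trans ?_ (RCLike.re_le_norm _)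
    rw [map_sum]
    refine le_of_eq (Finset.sum_congr rfl fun k hk => ?_)
    rw [Finset.mem_range] at hk
    rw [RCLike.re_mul_ofReal, hj1 k hk]
    simp only [decide_eq_true_eq]
    split_ifs with h
    · rw [abs_of_nonneg h, mul_one]
    · rw [abs_of_neg (not_le.1 h)]; ring
  have h2 : ∑ k ∈ Finset.range n, |RCLike.im (a k)| ≤
      ‖∑ k ∈ Finset.range n, a k • f 𝕜 k‖ := by
    refine le_trans ?_ (hj j2)
    refine le_trans ?_ (RCLike.im_le_norm _)
    rw [map_sum]
    refine le_of_eq (Finset.sum_congr rfl fun k hk => ?_)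
    rw [Finset.mem_range] at hk
    rw [RCLike.im_mul_ofReal, hj2 k hk]
    simp only [decide_eq_true_eq]
    split_ifs with h
    · rw [abs_of_nonneg h, mul_one]
    · rw [abs_of_neg (not_le.1 h)]; ring
  have h3 : ∑ k ∈ Finset.range n, ‖a k‖ ≤
      ∑ k ∈ Finset.range n, (|RCLike.re (a k)| + |RCLike.im (a k)|) :=
    Finset.sum_le_sum fun k _ => norm_le_re_add_im _
  rw [Finset.sum_add_distrib] at h3
  linarith

lemma norm_sum_f_le (a : ℕ → 𝕜) (n : ℕ) :
    ‖∑ k ∈ Finset.range n, a k • f 𝕜 k‖ ≤ ∑ k ∈ Finset.range n, ‖a k‖ := by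
  refine (norm_sum_le _ _).trans (Finset.sum_le_sum fun k _ => ?_)
  rw [norm_smul]
  exact mul_le_of_le_one_right (norm_nonneg _) (norm_f_le k)

lemma isBasic_of_l1 {Y : Type} [NormedAddCommGroup Y] [NormedSpace 𝕜 Y] [CompleteSpace Y]
    {u : ℕ → Y} {C : ℝ}
    (h1 : ∀ (a : ℕ → 𝕜) (n : ℕ), ∑ k ∈ Finset.range n, ‖a k‖ ≤ C * ‖∑ k ∈ Finset.range n, a k • u k‖)
    (h2 : ∀ (a : ℕ → 𝕜) (n : ℕ), ‖∑ k ∈ Finset.range n, a k • u k‖ ≤ ∑ k ∈ Finset.range n, ‖a k‖) :
    IsBasic 𝕜 u := by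
  have h3 : MP_6df72f_an.BasicExtension.IsBasicSeq 𝕜 u := by
    refine MP_6df72f_an.BasicExtension.isBasicSeq_of_grunblum (K := C) ?_ ?_
    · intro n hn
      have h4 := h1 (fun k => if k = n then 1 else 0) (n + 1)
      rw [Finset.sum_range_succ, Finset.sum_range_succ] at h4
      have h5 : ∑ k ∈ Finset.range n, (if k = n then (1 : 𝕜) else 0) • u k = 0 := by
        refine Finset.sum_eq_zero fun k hk => ?_
        rw [Finset.mem_range] at hk
        rw [if_neg (by omega), zero_smul]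
      rw [h5, hn, smul_zero, add_zero, norm_zero, mul_zero, if_pos rfl, norm_one] at h4
      have h6 : 0 ≤ ∑ k ∈ Finset.range n, ‖(if k = n then (1 : 𝕜) else 0)‖ :=
        Finset.sum_nonneg fun _ _ => norm_nonneg _
      linarith
    · intro a m n hmn
      refine (h2 a m).trans (le_trans ?_ (h1 a n))
      exact Finset.sum_le_sum_of_subset_of_nonneg (Finset.range_mono hmn)
        fun _ _ _ => norm_nonneg _
  exact h3.2

/-- The functionals are total. -/
lemma total {v : L1 𝕜} (hv : ∀ n, f 𝕜 n v = 0) : v = 0 := by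
  -- the value of `f n`
  have hsr : Summable fun j : ℕ => ‖v (Sum.inr j)‖ := (summ v).comp_injective Sum.inr_injective
  have hsl : Summable fun j : ℕ => ‖v (Sum.inl j)‖ := (summ v).comp_injective Sum.inl_injective
  have hval : ∀ n, v (Sum.inl n) + ∑' j, ((sg j n : ℝ) : 𝕜) * v (Sum.inr j) = 0 := by
    intro n
    have h1 := hv n
    rw [f, pair_apply] at h1
    have h2 : Summable ((fun i => ((cf n i : ℝ) : 𝕜) * v i) ∘ Sum.inl) := by
      refine Summable.of_norm_bounded hsl fun i => ?_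
      simp only [Function.comp, norm_mul, RCLike.norm_ofReal]
      exact mul_le_of_le_one_left (norm_nonneg _) (abs_cf_le _ _)
    have h3 : Summable ((fun i => ((cf n i : ℝ) : 𝕜) * v i) ∘ Sum.inr) := by
      refine Summable.of_norm_bounded hsr fun i => ?_
      simp only [Function.comp, norm_mul, RCLike.norm_ofReal]
      exact mul_le_of_le_one_left (norm_nonneg _) (abs_cf_le _ _)
    rw [Summable.tsum_sum h2 h3, tsum_eq_single n] at h1
    · simpa [cf] using h1
    · intro j hj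
      simp [cf, hj]
  have hr : ∀ j, v (Sum.inr j) = 0 := by
    intro j
    rw [← norm_le_zero_iff]
    refine le_of_forall_pos_le_add fun ε hε => ?_
    rw [zero_add]
    -- choose J with small tail
    have ht := tendsto_sum_nat_add (fun i => ‖v (Sum.inr i)‖)
    obtain ⟨J, hJ1, hJ2⟩ := (((tendsto_order.1 ht).2 (ε / 2) (by positivity)).and
      (eventually_gt_atTop j)).exists
    -- choose n in the column of j, beyond J and with small coordinate
    have hl0 : Tendsto (fun n => ‖v (Sum.inl n)‖) atTop (𝓝 0) := hsl.tendsto_atTop_zero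
    have hsub : Tendsto (fun m : ℕ => Nat.pair j m) atTop atTop :=
      tendsto_atTop_mono (fun m => Nat.right_le_pair j m) tendsto_id
    obtain ⟨m, hm1, hm2⟩ := (((tendsto_order.1 (hl0.comp hsub)).2 (ε / 2) (by positivity)).and
      (hsub.eventually_gt_atTop J)).exists
    set n := Nat.pair j m with hn
    simp only [Function.comp] at hm1
    rw [← hn] at hm1
    have hnj : (Nat.unpair n).1 = j := by rw [hn, Nat.unpair_pair]
    have hsum : Summable fun i => ((sg i n : ℝ) : 𝕜) * v (Sum.inr i) := by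
      refine Summable.of_norm_bounded hsr fun i => ?_
      rw [norm_mul, RCLike.norm_ofReal]
      exact mul_le_of_le_one_left (norm_nonneg _) (abs_sg_le _ _)
    have h1 := hval n
    rw [← hsum.sum_add_tsum_nat_add J] at h1
    have h2 : ∑ i ∈ Finset.range J, ((sg i n : ℝ) : 𝕜) * v (Sum.inr i) = v (Sum.inr j) := by
      rw [Finset.sum_eq_single_of_mem j (Finset.mem_range.2 hJ2)]
      · unfold sg
        rw [if_neg (by omega), if_pos hnj]
        simp
      · intro i hi hij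
        rw [Finset.mem_range] at hi
        unfold sg
        rw [if_neg (by omega), if_neg (by rw [hnj]; exact fun h => hij h.symm)]
        simp
    rw [h2] at h1
    have h3 : ‖∑' i, ((sg (i + J) n : ℝ) : 𝕜) * v (Sum.inr (i + J))‖ ≤
        ∑' i, ‖v (Sum.inr (i + J))‖ := by
      refine tsum_of_norm_bounded ((summable_nat_add_iff J).2 hsr).hasSum fun i => ?_
      rw [norm_mul, RCLike.norm_ofReal]
      exact mul_le_of_le_one_left (norm_nonneg _) (abs_sg_le _ _)
    have h4 : v (Sum.inr j) = -(v (Sum.inl n)) -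
        ∑' i, ((sg (i + J) n : ℝ) : 𝕜) * v (Sum.inr (i + J)) := by
      linear_combination h1
    rw [h4]
    calc ‖-(v (Sum.inl n)) - ∑' i, ((sg (i + J) n : ℝ) : 𝕜) * v (Sum.inr (i + J))‖
        ≤ ‖-(v (Sum.inl n))‖ + ‖∑' i, ((sg (i + J) n : ℝ) : 𝕜) * v (Sum.inr (i + J))‖ :=
          norm_sub_le _ _
      _ ≤ ε := by rw [norm_neg]; linarith
  ext i
  rcases i with n | j
  · have h1 := hval n
    simp only [hr, mul_zero, tsum_zero, add_zero] at h1
    exact h1
  · exact hr j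

lemma closed_sum : IsClosed {v : L1 𝕜 | ∃ a ∈ closedSpan 𝕜 (x 𝕜),
    ∃ b ∈ preAnn (closedSpan 𝕜 (f 𝕜) : Set (StrongDual 𝕜 (L1 𝕜))), v = a + b} := by
  have h1 : {v : L1 𝕜 | ∃ a ∈ closedSpan 𝕜 (x 𝕜),
      ∃ b ∈ preAnn (closedSpan 𝕜 (f 𝕜) : Set (StrongDual 𝕜 (L1 𝕜))), v = a + b} =
      (closedSpan 𝕜 (x 𝕜) : Set (L1 𝕜)) := by
    ext v
    constructor
    · rintro ⟨a, ha, b, hb, rfl⟩
      have hb0 : b = 0 := total fun n => hb _
        (Submodule.le_topologicalClosure _ (Submodule.subset_span ⟨n, rfl⟩))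
      rw [hb0, add_zero]
      exact ha
    · intro hv
      exact ⟨v, hv, 0, fun g _ => map_zero g, (add_zero v).symm⟩
  rw [h1]
  exact Submodule.isClosed_topologicalClosure _

lemma restricted_apply_le (a : ℕ → 𝕜) {M : ℝ} (m n : ℕ)
    (hM : ∀ k, m ≤ k → ‖a k‖ ≤ M) (hM0 : 0 ≤ M) :
    ‖∑ k ∈ Finset.Ico m n, a k • restricted (x 𝕜) (f 𝕜) k‖ ≤ M := by
  refine ContinuousLinearMap.opNorm_le_bound _ hM0 fun v => ?_
  -- the coordinates `inr` of `v` vanish
  have hv0 : ∀ j, (v : L1 𝕜) (Sum.inr j) = 0 := by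
    intro j
    have hcl : IsClosed {w : L1 𝕜 | w (Sum.inr j) = 0} :=
      isClosed_eq (lp.evalCLM 𝕜 (fun _ : ℕ ⊕ ℕ => 𝕜) 1 (Sum.inr j)).continuous continuous_const
    have hsub : (Submodule.span 𝕜 (Set.range (x 𝕜)) : Set (L1 𝕜)) ⊆
        {w : L1 𝕜 | w (Sum.inr j) = 0} := by
      intro w hw
      change w (Sum.inr j) = 0
      induction hw using Submodule.span_induction with
      | mem w hw => obtain ⟨n, rfl⟩ := hw; simp [x, e_apply]
      | zero => simp
      | add a b _ _ ha hb => simp [ha, hb]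
      | smul c a _ ha => simp [ha]
    exact closure_minimal hsub hcl v.2
  have hf : ∀ k, f 𝕜 k (v : L1 𝕜) = (v : L1 𝕜) (Sum.inl k) := by
    intro k
    rw [f, pair_apply, tsum_eq_single (Sum.inl k)]
    · simp [cf]
    · rintro (i | j) hij
      · have : i ≠ k := fun h => hij (by rw [h])
        simp [cf, this]
      · rw [hv0, mul_zero]
  have h1 : (∑ k ∈ Finset.Ico m n, a k • restricted (x 𝕜) (f 𝕜) k) v =
      ∑ k ∈ Finset.Ico m n, a k * (v : L1 𝕜) (Sum.inl k) := by
    rw [sum_apply]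
    refine Finset.sum_congr rfl fun k _ => ?_
    rw [smul_apply, smul_eq_mul]
    change a k * f 𝕜 k (v : L1 𝕜) = _
    rw [hf]
  rw [h1]
  refine (norm_sum_le _ _).trans ?_
  calc ∑ k ∈ Finset.Ico m n, ‖a k * (v : L1 𝕜) (Sum.inl k)‖
      ≤ ∑ k ∈ Finset.Ico m n, M * ‖(v : L1 𝕜) (Sum.inl k)‖ := by
        refine Finset.sum_le_sum fun k hk => ?_
        rw [norm_mul]
        rw [Finset.mem_Ico] at hk
        exact mul_le_mul_of_nonneg_right (hM k hk.1) (norm_nonneg _)
    _ = M * ∑ k ∈ Finset.Ico m n, ‖(v : L1 𝕜) (Sum.inl k)‖ := by rw [Finset.mul_sum]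
    _ ≤ M * ‖v‖ := by
        refine mul_le_mul_of_nonneg_left ?_ hM0
        rw [Submodule.coe_norm, norm_eq]
        have h2 := (summ (v : L1 𝕜)).sum_le_tsum
          ((Finset.Ico m n).map ⟨Sum.inl, Sum.inl_injective⟩) (fun _ _ => norm_nonneg _)
        rwa [Finset.sum_map] at h2

lemma not_equivalent : ¬ Equivalent 𝕜 (f 𝕜) (restricted (x 𝕜) (f 𝕜)) := by
  intro h
  set a : ℕ → 𝕜 := fun n => ((1 / ((n : ℝ) + 1) : ℝ) : 𝕜) with ha
  have hna : ∀ n, ‖a n‖ = 1 / ((n : ℝ) + 1) := by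
    intro n
    simp only [ha]
    rw [RCLike.norm_ofReal, abs_of_nonneg (by positivity)]
  have h1 : SeriesConverges (restricted (x 𝕜) (f 𝕜)) a := by
    have hc : CauchySeq fun n => ∑ i ∈ Finset.range n, a i • restricted (x 𝕜) (f 𝕜) i := by
      rw [Metric.cauchySeq_iff']
      intro ε hε
      obtain ⟨N, hN⟩ := exists_nat_one_div_lt (half_pos hε)
      refine ⟨N, fun n hn => ?_⟩
      rw [dist_eq_norm, ← Finset.sum_Ico_eq_sub _ hn]
      refine lt_of_le_of_lt (restricted_apply_le a (M := ε / 2) N n (fun k hk => ?_)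
        (by positivity)) (by linarith)
      rw [hna]
      refine le_trans ?_ hN.le
      apply one_div_le_one_div_of_le (by positivity)
      have : (N : ℝ) ≤ k := by exact_mod_cast hk
      linarith
    exact cauchySeq_tendsto_of_complete hc
  obtain ⟨v, hv⟩ := (h a).2 h1
  obtain ⟨M, hM⟩ := hv.norm.bddAbove_range
  have h2 : ∀ n, ∑ k ∈ Finset.range n, 1 / ((k : ℝ) + 1) ≤ 2 * M := by
    intro n
    have h3 := norm_sum_f_ge a n
    simp only [hna] at h3
    have h4 := hM ⟨n, rfl⟩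
    simp only at h4
    linarith
  have h5 : Summable fun k : ℕ => 1 / ((k : ℝ) + 1) :=
    summable_of_sum_range_le (fun k => by positivity) h2
  have h6 : Summable fun k : ℕ => 1 / (k : ℝ) := by
    rw [← summable_nat_add_iff 1]
    refine h5.congr fun k => ?_
    push_cast
    rfl
  exact Real.not_summable_one_div_natCast h6

end Construction

/-- **Main result.** There are a Banach space `E` (real or complex) and a biorthogonal system
`(x n, f n)` such that `(x n)` and `(f n)` are basic, `[x_n] + [f_n]_⊥` is closed, and `(f n)` is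
not equivalent to the sequence of the restrictions of the `f n` to `[x_n]`. -/
theorem result (𝕜 : Type) [RCLike 𝕜] :
    ∃ (E : Type) (_ : NormedAddCommGroup E) (_ : NormedSpace 𝕜 E) (_ : CompleteSpace E)
      (x : ℕ → E) (f : ℕ → StrongDual 𝕜 E),
      (∀ i j, f i (x j) = if i = j then 1 else 0) ∧ IsBasic 𝕜 x ∧ IsBasic 𝕜 f ∧
      IsClosed {v : E | ∃ a ∈ closedSpan 𝕜 x, ∃ b ∈ preAnn (closedSpan 𝕜 f : Set (StrongDual 𝕜 E)),
        v = a + b} ∧
      ¬ Equivalent 𝕜 f (restricted x f) :=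
  ⟨L1 𝕜, inferInstance, inferInstance, inferInstance, x 𝕜, f 𝕜, biorth,
    isBasic_of_l1 (C := 1) (fun a n => by rw [one_mul, norm_sum_x]) (fun a n => (norm_sum_x a n).le),
    isBasic_of_l1 (C := 2) norm_sum_f_ge norm_sum_f_le, closed_sum, not_equivalent⟩

end Pool.Agent.Results.MP_68f07c_an.ClosedSumCounterexample
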